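import Pool.Agent.H98.KS.Targets1

open scoped BigOperators
open Pool.Agent.H98.KS

namespace Pool.Agent.H91.KS

theorem pow_conv_nat (n : ℕ) : ∀ k : ℕ, 2 * (n + 1) ^ (k + 2) < (n + 2) ^ (k + 2) + n ^ (k + 2) := by
  intro k
  induction k with
  | zero =>
    have e : (n + 2) ^ (0 + 2) + n ^ (0 + 2) = 2 * (n + 1) ^ (0 + 2) + 2 := by ring
    omega
  | succ k ih =>
    have h1 : n ^ (k + 2) ≤ (n + 2) ^ (k + 2) := Nat.pow_le_pow_left (by omega) _
    have e1 : 2 * (n + 1) ^ (k + 1 + 2) = (n + 1) * (2 * (n + 1) ^ (k + 2)) := by ring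
    have e2 : (n + 2) ^ (k + 1 + 2) + n ^ (k + 1 + 2) =
        (n + 1) * ((n + 2) ^ (k + 2) + n ^ (k + 2)) + ((n + 2) ^ (k + 2) - n ^ (k + 2)) := by
      zify [h1]
      ring
    rw [e1, e2]
    have := Nat.mul_lt_mul_of_pos_left ih (Nat.succ_pos n)
    simp only [Nat.succ_eq_add_one] at this
    omega

theorem pow_conv_int (w : ℤ) (k : ℕ) (hk : 2 ≤ k) :
    2 * w.natAbs ^ k < (w + 1).natAbs ^ k + (w - 1).natAbs ^ k := by
  obtain ⟨m, rfl⟩ : ∃ m, k = m + 2 := ⟨k - 2, by omega⟩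
  rcases lt_trichotomy w 0 with h | h | h
  · obtain ⟨n, hn⟩ : ∃ n : ℕ, w.natAbs = n + 1 := ⟨w.natAbs - 1, by omega⟩
    have h1 : (w + 1).natAbs = n := by omega
    have h2 : (w - 1).natAbs = n + 2 := by omega
    rw [hn, h1, h2, add_comm (n ^ (m + 2))]
    exact pow_conv_nat n m
  · subst h
    simp
  · obtain ⟨n, hn⟩ : ∃ n : ℕ, w.natAbs = n + 1 := ⟨w.natAbs - 1, by omega⟩
    have h1 : (w + 1).natAbs = n + 2 := by omega
    have h2 : (w - 1).natAbs = n := by omega
    rw [hn, h1, h2]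
    exact pow_conv_nat n m

/-- the increments of `|v|^k` -/
def gi (k : ℕ) (v : ℤ) : ℤ := (((v + 1).natAbs ^ k : ℕ) : ℤ) - ((v.natAbs ^ k : ℕ) : ℤ)

theorem gi_strictMono (k : ℕ) (hk : 2 ≤ k) : StrictMono (gi k) := by
  apply strictMono_int_of_lt_succ
  intro v
  unfold gi
  have := pow_conv_int (v + 1) k hk
  rw [add_sub_cancel_right] at this
  have h2 : ((2 * (v + 1).natAbs ^ k : ℕ) : ℤ) < (((v + 1 + 1).natAbs ^ k + v.natAbs ^ k : ℕ) : ℤ) := by
    exact_mod_cast this
  push_cast at h2 ⊢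
  linarith

theorem phi_strictMono (k : ℕ) (hk : 2 ≤ k) (a b : ℤ) (hab : a < b) :
    StrictMono (fun u : ℤ => (((u - a).natAbs ^ k : ℕ) : ℤ) - (((u - b).natAbs ^ k : ℕ) : ℤ)) := by
  apply strictMono_int_of_lt_succ
  intro u
  have h := gi_strictMono k hk (show u - b < u - a by omega)
  unfold gi at h
  have e1 : u + 1 - a = u - a + 1 := by ring
  have e2 : u + 1 - b = u - b + 1 := by ring
  simp only [e1, e2]
  linarith

theorem phi_inj (k : ℕ) (hk : 2 ≤ k) (a b : ℤ) (hab : a ≠ b) (u v : ℤ)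
    (h : (((u - a).natAbs ^ k : ℕ) : ℤ) - (((u - b).natAbs ^ k : ℕ) : ℤ) =
      (((v - a).natAbs ^ k : ℕ) : ℤ) - (((v - b).natAbs ^ k : ℕ) : ℤ)) : u = v := by
  rcases lt_or_gt_of_ne hab with h1 | h1
  · exact (phi_strictMono k hk a b h1).injective h
  · apply (phi_strictMono k hk b a h1).injective
    show (((u - b).natAbs ^ k : ℕ) : ℤ) - (((u - a).natAbs ^ k : ℕ) : ℤ) =
      (((v - b).natAbs ^ k : ℕ) : ℤ) - (((v - a).natAbs ^ k : ℕ) : ℤ)
    linarith

theorem ks_EQ2 : T_EQ2 := by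
  classical
  intro k d L y y' hk hd hy
  obtain ⟨i, hi⟩ := Function.ne_iff.1 hy
  have key : ((cell d L).filter (fun x => pw k (x - y) = pw k (x - y'))).card ≤
      (Fintype.piFinset (fun _ : {j : Fin d // j ≠ i} => Finset.Ico (0 : ℤ) L)).card := by
    apply Finset.card_le_card_of_injOn (fun x (j : {j : Fin d // j ≠ i}) => x j)
    · intro x hx
      have hx' := (Finset.mem_filter.1 (Finset.mem_coe.1 hx)).1
      rw [cell, Fintype.mem_piFinset] at hx'
      apply Finset.mem_coe.2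
      rw [Fintype.mem_piFinset]
      intro j
      exact hx' j
    · intro x hx x' hx' hxx
      have hx1 := (Finset.mem_filter.1 (Finset.mem_coe.1 hx)).2
      have hx1' := (Finset.mem_filter.1 (Finset.mem_coe.1 hx')).2
      have hj : ∀ j, j ≠ i → x j = x' j := fun j hj => congrFun hxx ⟨j, hj⟩
      unfold pw at hx1 hx1'
      rw [← Finset.add_sum_erase _ _ (Finset.mem_univ i),
        ← Finset.add_sum_erase _ _ (Finset.mem_univ i)] at hx1 hx1'
      have hs1 : ∑ j ∈ Finset.univ.erase i, ((x' - y) j).natAbs ^ k =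
          ∑ j ∈ Finset.univ.erase i, ((x - y) j).natAbs ^ k := by
        apply Finset.sum_congr rfl
        intro j hj1
        have := hj j (Finset.ne_of_mem_erase hj1)
        simp only [Pi.sub_apply, this]
      have hs2 : ∑ j ∈ Finset.univ.erase i, ((x' - y') j).natAbs ^ k =
          ∑ j ∈ Finset.univ.erase i, ((x - y') j).natAbs ^ k := by
        apply Finset.sum_congr rfl
        intro j hj1
        have := hj j (Finset.ne_of_mem_erase hj1)
        simp only [Pi.sub_apply, this]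
      rw [hs1, hs2] at hx1'
      simp only [Pi.sub_apply] at hx1 hx1'
      have hii : x i = x' i := by
        apply phi_inj k hk (y i) (y' i) hi
        zify at hx1 hx1' ⊢
        linarith
      funext j
      by_cases hji : j = i
      · rw [hji]
        exact hii
      · exact hj j hji
  refine key.trans (le_of_eq ?_)
  rw [Fintype.card_piFinset]
  simp [Finset.prod_const]

end Pool.Agent.H91.KS
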