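import Pool.Agent.H98.KS.Targets1

open scoped BigOperators
open Pool.Agent.H98.KS

namespace Pool.Agent.H91.KS

/-- the elementary facts on `w = L^(1/G)` -/
theorem exists_w (k M L : ℕ) (N : ℝ) (hk : 3 ≤ k) (hM : 1 ≤ M) (hN : 1 ≤ N)
    (h1 : N ^ (1 + 1 / (2 * (k : ℝ))) ≤ L) (h2 : (L : ℝ) ≤ N ^ M) :
    ∃ w : ℝ, 1 ≤ w ∧ w ^ (12 * M * (2 * k + 1)) = (L : ℝ) ∧ N ≤ w ^ (24 * M * k) ∧
      w ^ (12 * (2 * k + 1)) ≤ N ∧ N ≤ (L : ℝ) := by
  have hk0 : (0 : ℝ) < k := by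
    have : (3 : ℝ) ≤ k := by exact_mod_cast hk
    linarith
  have hN0 : (0 : ℝ) ≤ N := by linarith
  have hNL : N ≤ (L : ℝ) := by
    refine le_trans ?_ h1
    have : N ^ (1 : ℝ) ≤ N ^ (1 + 1 / (2 * (k : ℝ))) := by
      apply Real.rpow_le_rpow_of_exponent_le hN
      have : 0 ≤ 1 / (2 * (k : ℝ)) := by positivity
      linarith
    rwa [Real.rpow_one] at this
  have hG : 12 * M * (2 * k + 1) ≠ 0 := by positivity
  have hL1 : (1 : ℝ) ≤ L := hN.trans hNL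
  set w : ℝ := (L : ℝ) ^ (((12 * M * (2 * k + 1) : ℕ) : ℝ)⁻¹) with hw
  have hwG : w ^ (12 * M * (2 * k + 1)) = (L : ℝ) :=
    Real.rpow_inv_natCast_pow (by linarith) hG
  have hw1 : 1 ≤ w := Real.one_le_rpow hL1 (by positivity)
  have hw0 : 0 ≤ w := by linarith
  refine ⟨w, hw1, hwG, ?_, ?_, hNL⟩
  · have h3 : N ^ (2 * k + 1) ≤ (L : ℝ) ^ (2 * k) := by
      have h4 : (N ^ (1 + 1 / (2 * (k : ℝ)))) ^ (2 * k) ≤ (L : ℝ) ^ (2 * k) :=
        pow_le_pow_left₀ (Real.rpow_nonneg hN0 _) h1 _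
      rw [← Real.rpow_natCast, ← Real.rpow_mul hN0] at h4
      have e : (1 + 1 / (2 * (k : ℝ))) * ((2 * k : ℕ) : ℝ) = ((2 * k + 1 : ℕ) : ℝ) := by
        push_cast
        field_simp
      rw [e, Real.rpow_natCast] at h4
      exact h4
    rw [← hwG, ← pow_mul] at h3
    have e : w ^ (12 * M * (2 * k + 1) * (2 * k)) = (w ^ (24 * M * k)) ^ (2 * k + 1) := by
      rw [← pow_mul]
      congr 1
      ring
    rw [e] at h3
    exact (pow_le_pow_iff_left₀ hN0 (by positivity) (by omega)).1 h3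
  · have e : w ^ (12 * M * (2 * k + 1)) = (w ^ (12 * (2 * k + 1))) ^ M := by
      rw [← pow_mul]
      congr 1
      ring
    rw [← hwG, e] at h2
    exact (pow_le_pow_iff_left₀ (by positivity) hN0 (by omega)).1 h2

/-- condition (f) -/
theorem cond_f (k n A t d G : ℕ) (N w L c0 : ℝ) (hA : k ≤ A * t)
    (hd : A * t + G * (A * t + k * (n + 1)) + 1 ≤ d) (hN : 1 ≤ N) (hNL : N ≤ L) (hw : 1 ≤ w)
    (hwG : w ^ G = L) (hc0 : 0 < c0)
    (hwc : 2 ^ d * 6 ^ (A * t) * (2 ^ (n + 1)) ^ (d - A * t) * 2 / c0 ≤ w) :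
    2 ^ d * (5 * L + 1) ^ (A * t) * (2 ^ (n + 1) * (L / (N * w))) ^ (d - A * t)
    ≤ (c0 * (L / N) ^ (d - k)) / (2 * L ^ (k * (n + 1))) := by
  have hL1 : 1 ≤ L := hN.trans hNL
  have hL0 : 0 < L := by linarith
  have hN0 : 0 < N := by linarith
  have hw0 : 0 < w := by linarith
  obtain ⟨e, he⟩ : ∃ e, d = A * t + e := ⟨d - A * t, by omega⟩
  have hee : d - A * t = e := by omega
  have heG : G * (A * t + k * (n + 1)) + 1 ≤ e := by omega
  have hdk : d - k = e + (A * t - k) := by omega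
  rw [hee] at hwc ⊢
  rw [hdk]
  have hLN : 1 ≤ L / N := by rwa [le_div_iff₀ hN0, one_mul]
  have h1 : (L / N) ^ e ≤ (L / N) ^ (e + (A * t - k)) := pow_le_pow_right₀ hLN (by omega)
  have h2 : (5 * L + 1) ^ (A * t) ≤ (6 * L) ^ (A * t) := pow_le_pow_left₀ (by linarith) (by linarith) _
  have h3 : w ^ (G * (A * t + k * (n + 1)) + 1) ≤ w ^ e := pow_le_pow_right₀ hw heG
  rw [pow_succ, pow_mul, hwG] at h3
  rw [div_le_iff₀ hc0] at hwc
  -- main
  rw [le_div_iff₀ (by positivity)]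
  have e1 : 2 ^ (n + 1) * (L / (N * w)) = 2 ^ (n + 1) * (L / N) / w := by
    field_simp
  rw [e1, div_pow, mul_pow (2 ^ (n + 1)) (L / N)]
  have hwe : 0 < w ^ e := by positivity
  have hLNe : 0 < (L / N) ^ e := by positivity
  calc 2 ^ d * (5 * L + 1) ^ (A * t) * ((2 ^ (n + 1)) ^ e * (L / N) ^ e / w ^ e) * (2 * L ^ (k * (n + 1)))
      ≤ 2 ^ d * (6 * L) ^ (A * t) * ((2 ^ (n + 1)) ^ e * (L / N) ^ e / w ^ e) * (2 * L ^ (k * (n + 1))) := by
        gcongr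
    _ = (2 ^ d * 6 ^ (A * t) * (2 ^ (n + 1)) ^ e * 2) * (L ^ (A * t + k * (n + 1))) * (L / N) ^ e / w ^ e := by
        rw [mul_pow, pow_add]
        ring
    _ ≤ (w * c0) * (L ^ (A * t + k * (n + 1))) * (L / N) ^ e / w ^ e := by
        gcongr
    _ = (L ^ (A * t + k * (n + 1)) * w) * c0 * (L / N) ^ e / w ^ e := by ring
    _ ≤ w ^ e * c0 * (L / N) ^ e / w ^ e := by
        gcongr
    _ = c0 * (L / N) ^ e := by
        field_simp
    _ ≤ c0 * (L / N) ^ (e + (A * t - k)) := by gcongr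

/-- the final inequality -/
theorem final_ineq (k M n d : ℕ) (N w L c0 C3 Q x f : ℝ) (hk : 3 ≤ k) (hkd : k < d)
    (hn : n = 2 * (k * M + 1)) (hN : 1 ≤ N) (hNL : N ≤ L) (hLM : L ≤ N ^ M) (hw : 1 ≤ w)
    (hwN : w ^ 12 ≤ N) (hc0 : 0 < c0) (hC3 : 0 < C3) (hQ : 0 ≤ Q)
    (hN1 : 8 * (C3 ^ n / c0 ^ (n + 1)) ≤ N) (hN2 : 4 * (C3 ^ n / c0 ^ (n + 1)) * Q ^ n ≤ N)
    (hx : 0 ≤ x) (hf : 0 ≤ f) (hfC : f ≤ C3 * (L / N) ^ d)
    (h : (c0 * (L / N) ^ (d - k)) ^ (n + 1) * x ≤ 2 * f ^ (n + 1) * L ^ d *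
        (2 / L ^ (k * (n + 1)) + (Q * N ^ 2 * w ^ 6 / L ^ k) ^ n)) :
    x ≤ N ^ ((d : ℝ) - 1 / 2) * f := by
  have hL1 : 1 ≤ L := hN.trans hNL
  have hL0 : 0 < L := by linarith
  have hN0 : 0 < N := by linarith
  have hw0 : 0 < w := by linarith
  have hLN : 1 ≤ L / N := by rwa [le_div_iff₀ hN0, one_mul]
  have hLN0 : 0 < L / N := by linarith
  set K : ℝ := C3 ^ n / c0 ^ (n + 1) with hK
  have hK0 : 0 < K := by positivity
  obtain ⟨e, he⟩ : ∃ e, d = k + e := ⟨d - k, by omega⟩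
  have hde : d - k = e := by omega
  rw [hde] at h
  -- step 1
  have s1 : f ^ (n + 1) ≤ f * (C3 * (L / N) ^ d) ^ n := by
    rw [pow_succ, mul_comm]
    gcongr
  have s2 : (c0 * (L / N) ^ e) ^ (n + 1) * x ≤ (2 * (f * (C3 * (L / N) ^ d) ^ n) * L ^ d) *
      (2 / L ^ (k * (n + 1)) + (Q * N ^ 2 * w ^ 6 / L ^ k) ^ n) := by
    refine h.trans ?_
    gcongr
  have hT0 : 0 < (c0 * (L / N) ^ e) ^ (n + 1) := by positivity
  -- step 2
  have s3 : x ≤ (2 * f * K * N ^ d) * (2 / N ^ (k * (n + 1)) +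
      Q ^ n * N ^ (2 * n) * w ^ (6 * n) * L ^ k / N ^ (k * (n + 1))) := by
    rw [← mul_le_mul_iff_right₀ hT0]
    refine s2.trans (le_of_eq ?_)
    have e0 : (C3 * (L / N) ^ d) ^ n = C3 ^ n * ((L / N) ^ (k * n) * (L / N) ^ (e * n)) := by
      rw [mul_pow, ← pow_mul, he, ← pow_add]
      congr 2
      ring
    have e1 : (c0 * (L / N) ^ e) ^ (n + 1) = c0 ^ (n + 1) * ((L / N) ^ (e * n) * (L / N) ^ e) := by
      rw [mul_pow, ← pow_mul, ← pow_add]
      congr 2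
    have e2 : L ^ d = N ^ d * ((L / N) ^ k * (L / N) ^ e) := by
      rw [← pow_add, ← he, ← mul_pow]
      congr 1
      field_simp
    have e3 : (Q * N ^ 2 * w ^ 6 / L ^ k) ^ n = Q ^ n * N ^ (2 * n) * w ^ (6 * n) * L ^ k / L ^ (k * (n + 1)) := by
      rw [div_pow, mul_pow, mul_pow, ← pow_mul, ← pow_mul, ← pow_mul]
      rw [show k * (n + 1) = k * n + k by ring, pow_add]
      field_simp
    have e4 : L ^ (k * (n + 1)) = N ^ (k * (n + 1)) * ((L / N) ^ (k * n) * (L / N) ^ k) := by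
      rw [← pow_add, show k * n + k = k * (n + 1) by ring, ← mul_pow]
      congr 1
      field_simp
    have p1 : (L / N) ^ (k * n) ≠ 0 := by positivity
    have p2 : (L / N) ^ (e * n) ≠ 0 := by positivity
    have p3 : (L / N) ^ k ≠ 0 := by positivity
    have p4 : (L / N) ^ e ≠ 0 := by positivity
    have p5 : N ^ (k * (n + 1)) ≠ 0 := by positivity
    have p6 : c0 ^ (n + 1) ≠ 0 := by positivity
    rw [e3, e0, e1, e2, e4, hK]
    generalize (L / N) ^ (k * n) = a1 at *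
    generalize (L / N) ^ (e * n) = a2 at *
    generalize (L / N) ^ k = a3 at *
    generalize (L / N) ^ e = a4 at *
    generalize N ^ (k * (n + 1)) = a5 at *
    generalize c0 ^ (n + 1) = a6 at *
    generalize L ^ k = a7 at *
    generalize N ^ (2 * n) = a8 at *
    generalize w ^ (6 * n) = a9 at *
    field_simp
  -- step 3
  have b1 : 2 * K * (2 / N ^ (k * (n + 1))) ≤ 1 / (2 * N) := by
    rw [mul_div_assoc', div_le_div_iff₀ (by positivity) (by positivity)]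
    have q1 : N ^ 2 ≤ N ^ (k * (n + 1)) := pow_le_pow_right₀ hN (by nlinarith)
    nlinarith
  have b2 : 2 * K * (Q ^ n * N ^ (2 * n) * w ^ (6 * n) * L ^ k / N ^ (k * (n + 1))) ≤ 1 / (2 * N) := by
    rw [mul_div_assoc', div_le_div_iff₀ (by positivity) (by positivity)]
    have q1 : N ^ (3 * n + 1) ≤ N ^ (k * (n + 1)) := pow_le_pow_right₀ hN (by nlinarith)
    have q2 : w ^ (6 * n) ≤ N ^ (k * M + 1) := by
      have : w ^ (6 * n) = (w ^ 12) ^ (k * M + 1) := by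
        rw [← pow_mul, hn]
        congr 1
        ring
      rw [this]
      exact pow_le_pow_left₀ (by positivity) hwN _
    have q3 : L ^ k ≤ N ^ (M * k) := by
      rw [pow_mul]
      exact pow_le_pow_left₀ hL0.le hLM _
    have q4 : N ^ (2 * n) * (N ^ (k * M + 1)) * N ^ (M * k) * N = N ^ (3 * n) := by
      rw [← pow_add, ← pow_add, ← pow_succ]
      congr 1
      rw [hn]
      ring
    calc 2 * K * (Q ^ n * N ^ (2 * n) * w ^ (6 * n) * L ^ k) * (2 * N)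
        ≤ 2 * K * (Q ^ n * N ^ (2 * n) * N ^ (k * M + 1) * N ^ (M * k)) * (2 * N) := by
          gcongr
      _ = (4 * K * Q ^ n) * (N ^ (2 * n) * (N ^ (k * M + 1)) * N ^ (M * k) * N) := by ring
      _ = (4 * K * Q ^ n) * N ^ (3 * n) := by rw [q4]
      _ ≤ N * N ^ (3 * n) := by gcongr
      _ = N ^ (3 * n + 1) := by ring
      _ ≤ 1 * N ^ (k * (n + 1)) := by rw [one_mul]; exact q1
  have b3 : (2 * f * K * N ^ d) * (2 / N ^ (k * (n + 1)) +
      Q ^ n * N ^ (2 * n) * w ^ (6 * n) * L ^ k / N ^ (k * (n + 1))) ≤ f * N ^ d * (1 / N) := by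
    have : (2 * f * K * N ^ d) * (2 / N ^ (k * (n + 1)) +
      Q ^ n * N ^ (2 * n) * w ^ (6 * n) * L ^ k / N ^ (k * (n + 1))) =
      f * N ^ d * (2 * K * (2 / N ^ (k * (n + 1))) +
        2 * K * (Q ^ n * N ^ (2 * n) * w ^ (6 * n) * L ^ k / N ^ (k * (n + 1)))) := by ring
    rw [this]
    have h2 : 1 / (2 * N) + 1 / (2 * N) = 1 / N := by field_simp; norm_num
    rw [← h2]
    gcongr
  refine (s3.trans b3).trans ?_
  have e5 : f * N ^ d * (1 / N) = N ^ ((d : ℝ) - 1) * f := by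
    rw [Real.rpow_sub hN0, Real.rpow_natCast, Real.rpow_one]
    ring
  rw [e5]
  have e6 : N ^ ((d : ℝ) - 1) ≤ N ^ ((d : ℝ) - 1 / 2) :=
    Real.rpow_le_rpow_of_exponent_le hN (by linarith)
  exact mul_le_mul_of_nonneg_right e6 hf

theorem ks_NB : T_NB := by
  intro k A M hk hA hM
  set n : ℕ := 2 * (k * M + 1) with hn
  set G : ℕ := 12 * M * (2 * k + 1) with hG
  set t : ℕ := G * (k * (n + 1)) + 1 with ht
  refine ⟨n, t, A * t + G * (A * t + k * (n + 1)) + 1 + k + 1, by omega, by omega, ?_⟩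
  intro d hd
  have hG1 : 1 ≤ G := by
    rw [hG]
    exact Nat.one_le_iff_ne_zero.2 (by positivity)
  have hkt : k ≤ A * t := by
    have h1 : k ≤ t := by
      rw [ht]
      nlinarith [Nat.zero_le n, Nat.zero_le k, Nat.mul_le_mul hG1 (le_refl (k * (n + 1)))]
    nlinarith
  refine ⟨by omega, ?_⟩
  intro c0 C3 hc0 hC3
  set K : ℝ := C3 ^ n / c0 ^ (n + 1) with hK
  have hK0 : 0 < K := by positivity
  set Q : ℝ := 192 * k * (A : ℝ) ^ 4 with hQ
  have hQ0 : 0 ≤ Q := by positivity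
  have hA1 : (1 : ℝ) ≤ A := by exact_mod_cast hA
  set c1 : ℝ := 2 ^ d * 6 ^ (A * t) * (2 ^ (n + 1)) ^ (d - A * t) * 2 / c0 with hc1
  have hc10 : 0 < c1 := by positivity
  set W0 : ℝ := 192 * (A : ℝ) ^ 2 + (2 ^ (n + 1)) ^ (A * t) + c1 with hW0
  have hW1 : 1 ≤ W0 := by
    have : (0 : ℝ) < (2 ^ (n + 1)) ^ (A * t) := by positivity
    nlinarith
  refine ⟨W0 ^ G + 8 * K + 4 * K * Q ^ n, ?_, ?_⟩
  · have h1 : 1 ≤ W0 ^ G := one_le_pow₀ hW1
    have h2 : 0 ≤ 8 * K := by positivity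
    have h3 : 0 ≤ 4 * K * Q ^ n := by positivity
    linarith
  intro N L hN0 hNL hLM
  have hWG : 1 ≤ W0 ^ G := one_le_pow₀ hW1
  have p2 : 0 ≤ 8 * K := by positivity
  have p3 : 0 ≤ 4 * K * Q ^ n := by positivity
  have hN1 : 1 ≤ N := by linarith
  obtain ⟨w, hw1, hwG, hNw, hwN, hNL'⟩ := exists_w k M L N hk hM hN1 hNL hLM
  rw [← hG] at hwG
  have hw0 : 0 < w := by linarith
  have hWw : W0 ≤ w := by
    have : W0 ^ G ≤ w ^ G := by
      rw [hwG]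
      linarith
    exact (pow_le_pow_iff_left₀ (by linarith) hw0.le (by omega)).1 this
  have hL1 : (1 : ℝ) ≤ L := hN1.trans hNL'
  have hA2 : (A : ℝ) ≤ (A : ℝ) ^ 2 := by nlinarith
  have hp : (0 : ℝ) < (2 ^ (n + 1)) ^ (A * t) := by positivity
  have hw192 : 192 * (A : ℝ) ^ 2 ≤ w := by linarith
  have hwA : 192 * (A : ℝ) ≤ w := by linarith
  have hLw2 : w ^ 2 ≤ (L : ℝ) := by
    rw [← hwG]
    apply pow_le_pow_right₀ hw1
    rw [hG]
    nlinarith [Nat.mul_le_mul hM (show 1 ≤ 2 * k + 1 by omega)]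
  have hM12 : 12 ≤ 12 * M := by omega
  have hLM2 : w ^ (24 * M * k) * w ^ (12 * M) = (L : ℝ) := by
    rw [← hwG, ← pow_add]
    congr 1
    rw [hG]
    ring
  have hNw12 : N * w ^ 12 ≤ (L : ℝ) := by
    rw [← hLM2]
    have : w ^ 12 ≤ w ^ (12 * M) := pow_le_pow_right₀ hw1 hM12
    gcongr
  have hLk1 : (L : ℝ) ≤ (L : ℝ) ^ (k - 1) := by
    apply le_self_pow₀ hL1
    omega
  have hLk2 : (L : ℝ) ≤ (L : ℝ) ^ (k - 2) := by
    apply le_self_pow₀ hL1
    omega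
  have hw13 : w ^ 3 * w ≤ w ^ 12 := by
    rw [← pow_succ]
    exact pow_le_pow_right₀ hw1 (by norm_num)
  have hw14 : w ^ 2 * w ≤ w ^ 12 := by
    rw [← pow_succ]
    exact pow_le_pow_right₀ hw1 (by norm_num)
  refine ⟨w, ⟨by omega, hN1, hw1, by positivity, ?_, ?_, ?_, ?_, ?_⟩, ?_⟩
  · refine le_trans ?_ hLk1
    refine le_trans ?_ hNw12
    calc 192 * (A : ℝ) ^ 2 * w ^ 3 * N ≤ w * w ^ 3 * N := by gcongr
      _ = N * (w ^ 3 * w) := by ring
      _ ≤ N * w ^ 12 := by gcongr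
  · refine le_trans ?_ hNw12
    calc 2 * (A : ℝ) * w ^ 2 * N ≤ w * w ^ 2 * N := by
          gcongr
          linarith
      _ = N * (w ^ 2 * w) := by ring
      _ ≤ N * w ^ 12 := by gcongr
  · refine le_trans ?_ hLk2
    refine le_trans ?_ hLw2
    rw [pow_two]
    gcongr
    linarith
  · exact cond_f k n A t d G N w L c0 hkt (by omega) hN1 hNL' hw1 hwG hc0 (by linarith)
  · rw [le_div_iff₀ (by positivity)]
    have e7 : w ^ t = (L : ℝ) ^ (k * (n + 1)) * w := by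
      rw [ht, pow_succ, pow_mul w, hwG]
    rw [e7, mul_comm]
    have e8 : ((2 : ℝ) ^ (n + 1)) ^ (A * t) ≤ w := by linarith
    exact mul_le_mul_of_nonneg_left e8 (by positivity)
  · intro x f hx hf hfC h
    refine final_ineq k M n d N w L c0 C3 Q x f hk (by omega) hn hN1 hNL' hLM hw1 ?_ hc0 hC3 hQ0
      (by linarith) (by linarith) hx hf hfC h
    refine le_trans ?_ hwN
    exact pow_le_pow_right₀ hw1 (by omega)

end Pool.Agent.H91.KS
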